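import Pool.Agent.H23.D2.Bwj
import Pool.Agent.H2.GEN.Swp

/-!
# Two families of balls on one event

`relv_off`: no relation off an event of small mass. `winb_twos`, `winb_two`: two families `WinB` on
one event (chains of lengths `r₂ ≤ r₁`), at windows with the same width and the same levels: off an
event of small mass the charts agree on the natural boxes of both.
-/

set_option autoImplicit false

namespace Pool.V0T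

open Finset Real MvPolynomial
open Pool.Agent.H49.Ent Pool.Agent.H32.Dense Pool.STK Pool.KA Pool.KSAT Pool.K2S Pool.PB Pool.S6C
open Pool.GEN Pool.CHT Pool.CHX Pool.ISO
open Pool.D2R (WinB EvB)

variable {m J : ℕ} {F : Fam m J} {c : ℕ → Fin m}

/-- The mass of a part and of the rest. -/
theorem pe_rest {Ω : Type} [Fintype Ω] (p : Ω → ℝ) (A E : Ω → Prop) :
    Pe p (fun ω => A ω ∧ ¬ E ω) = Pe p A - Pe p (fun ω => A ω ∧ E ω) := by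
  classical
  rw [Pe_eq, Pe_eq, Pe_eq, ← Finset.sum_sub_distrib]
  refine Finset.sum_congr rfl fun ω _ => ?_
  by_cases h1 : A ω <;> by_cases h2 : E ω <;> simp [h1, h2]

/-- Finitely many exceptional events. -/
theorem pe_un {Ω : Type} [Fintype Ω] {p : Ω → ℝ} (hp : IsLaw p) (A : Ω → Prop) (n : ℕ)
    (E : ℕ → Ω → Prop) {ε : ℝ} (h : ∀ i < n, Pe p (fun ω => A ω ∧ E i ω) ≤ ε) :
    Pe p (fun ω => A ω ∧ ∃ i < n, E i ω) ≤ n * ε := by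
  classical
  induction n with
  | zero =>
    have : Pe p (fun ω => A ω ∧ ∃ i < 0, E i ω) = 0 := by
      rw [Pe_eq]
      refine Finset.sum_eq_zero fun ω _ => if_neg ?_
      rintro ⟨-, i, hi, -⟩
      omega
    rw [this]
    simp
  | succ n ih =>
    have h1 := ih fun i hi => h i (by omega)
    have h2 := h n (by omega)
    have h3 : Pe p (fun ω => A ω ∧ ∃ i < n + 1, E i ω) ≤
        Pe p (fun ω => A ω ∧ ∃ i < n, E i ω) + Pe p (fun ω => A ω ∧ E n ω) := by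
      rw [Pe_eq, Pe_eq, Pe_eq, ← Finset.sum_add_distrib]
      refine Finset.sum_le_sum fun ω _ => ?_
      have h0 := hp.nonneg ω
      by_cases hA : A ω
      · by_cases h4 : ∃ i < n, E i ω
        · rw [if_pos (show A ω ∧ ∃ i < n, E i ω from ⟨hA, h4⟩)]
          split_ifs <;> linarith
        · by_cases h5 : E n ω
          · rw [if_pos (show A ω ∧ E n ω from ⟨hA, h5⟩)]
            split_ifs <;> linarith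
          · have h6 : ¬ (A ω ∧ ∃ i < n + 1, E i ω) := by
              rintro ⟨-, i, hi, hE⟩
              rcases Nat.lt_succ_iff_lt_or_eq.1 hi with h7 | rfl
              · exact h4 ⟨i, h7, hE⟩
              · exact h5 hE
            rw [if_neg h6]
            split_ifs <;> linarith
      · rw [if_neg fun h => hA h.1, if_neg fun h => hA h.1, if_neg fun h => hA h.1, add_zero]
    push_cast
    linarith

/-- **No relation off a small event.** -/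
theorem relv_off {i a w : ℕ} {g : ℕ → ℕ} {D h : ℕ} {κ : ℝ} {B : F.Ω → Prop}
    {G : PtT F → ℕ → MvPolynomial (Option (Fin m)) ℝ} (hR : RelvF F c i a w g D h κ B G)
    (hκ : 0 ≤ κ) {Dx : PtT F → MvPolynomial (Option (Fin m)) ℝ}
    {Dl : LnT F → MvPolynomial (Option (Fin m)) ℝ} {M : ℝ} (d1 : ∀ y, (Dx y).totalDegree ≤ D)
    (d2 : ∀ s, (Dl s).totalDegree ≤ D) (d3 : ∀ y, DepC c i (Dx y)) (d4 : ∀ s, DepC c i (Dl s))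
    (hM : 0 < M) (h1 : ∀ ω, B ω → |eval (bt F ω) (Dx (ptr F J ω))| ≤ M)
    (h2 : ∀ ω, B ω → ∀ b, NBx c (G (ptr F J ω)) g a (F.t ω) i b →
      |eval b (Dx (ptr F J ω)) - eval b (Dl (slam F w ω))| ≤ M) :
    Pe F.p (fun ω => B ω ∧ ¬ ∀ b, NBx c (G (ptr F J ω)) g a (F.t ω) i b →
      |eval b (Dx (ptr F J ω))| ≤ 2 ^ h * M) ≤ κ * Pe F.p B := by
  classical
  have hB0 := Pe_nonneg F.isLaw B
  by_contra hcon
  rw [not_le] at hcon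
  obtain ⟨B'', k1, k2, k3⟩ := hR _ (fun ω hω => hω.1) hcon.le Dx Dl M d1 d2 d3 d4 hM
    (fun ω hω => h1 ω hω.1) fun ω hω => h2 ω hω.1
  have h0 : Pe F.p B'' = 0 := by
    rw [Pe_eq]
    exact Finset.sum_eq_zero fun ω _ => if_neg fun hω => (k1 ω hω).2 (k3 ω hω)
  have h3 : 0 ≤ κ * Pe F.p B := mul_nonneg hκ hB0
  linarith

/-- Two charts of a place on the boxes of one of them. -/
theorem twin_side {r₀ w Dr h l : ℕ} {g g' : ℕ → ℕ} {κ : ℝ} {B : F.Ω → Prop}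
    {G G' : PtT F → ℕ → MvPolynomial (Option (Fin m)) ℝ}
    {H H' : LnT F → ℕ → MvPolynomial (Option (Fin m)) ℝ} (hc : Set.InjOn c (Set.Iio r₀))
    (hR : RelvF F c r₀ w w g Dr h κ B G) (hκ : 0 ≤ κ) (hl : l ≤ r₀)
    (dG : ∀ y, (G y l).totalDegree ≤ Dr) (dG' : ∀ y, (G' y l).totalDegree ≤ Dr)
    (dH : ∀ s, (H s l).totalDegree ≤ Dr) (dH' : ∀ s, (H' s l).totalDegree ≤ Dr)
    (pG : ∀ y i, DepC c i (G y i)) (pG' : ∀ y, DepC c l (G' y l)) (pH : ∀ s, DepC c l (H s l))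
    (pH' : ∀ s, DepC c l (H' s l))
    (c1 : ∀ ω, B ω → G (ptr F J ω) l = H (slam F w ω) l)
    (c2 : ∀ ω, B ω → G' (ptr F J ω) l = H' (slam F w ω) l)
    (q1 : ∀ ω, B ω → |F.x ω (c l) - eval (bt F ω) (G (ptr F J ω) l)| ≤ 1 / 2 ^ g l)
    (q2 : ∀ ω, B ω → |F.x ω (c l) - eval (bt F ω) (G' (ptr F J ω) l)| ≤ 1 / 2 ^ g' l) :
    Pe F.p (fun ω => B ω ∧ ¬ ∀ b, NBx c (G (ptr F J ω)) g w (F.t ω) l b →
      |eval b (G' (ptr F J ω) l) - eval b (G (ptr F J ω) l)| ≤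
        2 ^ h * (2 / 2 ^ min (g' l) (g l))) ≤ κ * Pe F.p B := by
  classical
  have dsub : ∀ {P Q : MvPolynomial (Option (Fin m)) ℝ}, P.totalDegree ≤ Dr →
      Q.totalDegree ≤ Dr → (P - Q).totalDegree ≤ Dr := fun h1 h2 =>
    (totalDegree_sub _ _).trans (max_le h1 h2)
  have psub : ∀ {P Q : MvPolynomial (Option (Fin m)) ℝ}, DepC c l P → DepC c l Q →
      DepC c l (P - Q) := fun h1 h2 b b' hn hb => by
    rw [eval_sub, eval_sub, h1 b b' hn hb, h2 b b' hn hb]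
  have key := relv_off hR hκ (Dx := fun y => G' y l - G y l) (Dl := fun s => H' s l - H s l)
    (M := 2 / 2 ^ min (g' l) (g l)) (fun y => dsub (dG' y) (dG y)) (fun s => dsub (dH' s) (dH s))
    (fun y => (psub (pG' y) (pG y l)).mono hl) (fun s => (psub (pH' s) (pH s)).mono hl)
    (by positivity) (fun ω hω => by
      have e1 := abs_le.1 (q1 ω hω)
      have e2 := abs_le.1 (q2 ω hω)
      have e3 : (1 : ℝ) / 2 ^ g l ≤ 1 / 2 ^ min (g' l) (g l) :=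
        one_div_le_one_div_of_le (by positivity) (pow_le_pow_right₀ (by norm_num) (min_le_right _ _))
      have e4 : (1 : ℝ) / 2 ^ g' l ≤ 1 / 2 ^ min (g' l) (g l) :=
        one_div_le_one_div_of_le (by positivity) (pow_le_pow_right₀ (by norm_num) (min_le_left _ _))
      have e5 : (2 : ℝ) / 2 ^ min (g' l) (g l) = 1 / 2 ^ min (g' l) (g l) +
        1 / 2 ^ min (g' l) (g l) := by ring
      rw [e5]
      show |eval (bt F ω) (G' (ptr F J ω) l - G (ptr F J ω) l)| ≤ _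
      rw [eval_sub, abs_le]
      constructor <;> linarith) (fun ω hω b _ => by
      show |eval b (G' (ptr F J ω) l - G (ptr F J ω) l) -
        eval b (H' (slam F w ω) l - H (slam F w ω) l)| ≤ _
      rw [c1 ω hω, c2 ω hω, sub_self, abs_zero]
      positivity)
  refine le_trans (Pe_mono F.isLaw fun ω hω => ⟨hω.1, fun hall => hω.2 fun b hb => ?_⟩) key
  obtain ⟨b', m1, m2, m3, -⟩ := nbx_ext hc (pG (ptr F J ω)) hl hb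
  have e1 := hall b' m1
  rw [eval_sub, pG' _ b' b m2 fun i hi => m3 i hi, pG _ l b' b m2 fun i hi => m3 i hi] at e1
  exact e1

/-- **Two families of balls on one event**, at `n` pairs of windows. -/
theorem winb_twos (r : ℕ) : ∃ C : ℕ, 1 ≤ C ∧ ∀ {m J : ℕ} {F : Fam m J} {c : ℕ → Fin m}
    {r₁ r₂ D₁ Dr₁ D₂ Dr₂ N₁ M₁ N₂ M₂ : ℕ} {C₁ a₁ Eb₁ ηm₁ C₂ a₂ Eb₂ ηm₂ ηm : ℝ}
    {o₁ η₁ σ₁ o₂ η₂ σ₂ : ℕ → ℝ} {lv₁ b₁ lv₂ b₂ : ℕ → ℕ → ℝ} {κ₁ κ₂ κ : ℝ} {z₁ z₂ : ℕ → ℕ → ℕ}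
    {B : F.Ω → Prop} {g₁ g₂ : ℕ → ℕ → ℕ}
    {G₁ G₂ : ℕ → PtT F → ℕ → MvPolynomial (Option (Fin m)) ℝ}
    {H₁ H₂ : ℕ → LnT F → ℕ → MvPolynomial (Option (Fin m)) ℝ},
    WinB F c r₁ D₁ Dr₁ N₁ M₁ C₁ a₁ Eb₁ ηm₁ o₁ η₁ σ₁ lv₁ b₁ κ₁ z₁ B g₁ G₁ H₁ →
    WinB F c r₂ D₂ Dr₂ N₂ M₂ C₂ a₂ Eb₂ ηm₂ o₂ η₂ σ₂ lv₂ b₂ κ₂ z₂ B g₂ G₂ H₂ →
    r₂ ≤ r₁ → r₁ ≤ r → D₁ ≤ Dr₁ → D₂ ≤ Dr₁ → D₁ ≤ Dr₂ → D₂ ≤ Dr₂ →
    Set.InjOn c (Set.Iio (r₁ + 1)) → 0 ≤ κ → κ₁ ≤ κ → κ₂ ≤ κ → ηm₁ ≤ ηm → ηm₂ ≤ ηm →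
    1 ≤ ηm * J → ∀ {n : ℕ} {k₁ k₂ : ℕ → ℕ}, (∀ i < n, k₁ i ≤ N₁ ∧ k₂ i ≤ N₂ ∧
      o₁ (k₁ i) = o₂ (k₂ i) ∧ ∀ l ≤ r₂, lv₁ (k₁ i) l = lv₂ (k₂ i) l) →
    ∃ B' : F.Ω → Prop, Sub B' B ∧ (1 - n * C * κ) * Pe F.p B ≤ Pe F.p B' ∧
      ∀ ω, B' ω → ∀ i < n, ∀ l ≤ r₂,
        (∀ b, NBx c (G₂ (k₂ i) (ptr F J ω)) (g₂ (k₂ i)) ⌊o₂ (k₂ i) * J⌋₊ (F.t ω) l b →
          |eval b (G₁ (k₁ i) (ptr F J ω) l) - eval b (G₂ (k₂ i) (ptr F J ω) l)| ≤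
            2 ^ ⌊C * (ηm * J)⌋₊ / 2 ^ g₂ (k₂ i) l) ∧
        ∀ b, NBx c (G₁ (k₁ i) (ptr F J ω)) (g₁ (k₁ i)) ⌊o₁ (k₁ i) * J⌋₊ (F.t ω) l b →
          |eval b (G₂ (k₂ i) (ptr F J ω) l) - eval b (G₁ (k₁ i) (ptr F J ω) l)| ≤
            2 ^ ⌊C * (ηm * J)⌋₊ / 2 ^ g₁ (k₁ i) l := by
  classical
  refine ⟨2 * r + 4, by omega, ?_⟩
  intro m J F c r₁ r₂ D₁ Dr₁ D₂ Dr₂ N₁ M₁ N₂ M₂ C₁ a₁ Eb₁ ηm₁ C₂ a₂ Eb₂ ηm₂ ηm o₁ η₁ σ₁ o₂ η₂ σ₂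
    lv₁ b₁ lv₂ b₂ κ₁ κ₂ κ z₁ z₂ B g₁ g₂ G₁ G₂ H₁ H₂ W₁ W₂ hr hr₁ e11 e12 e21 e22 hc hκ hκ₁ hκ₂
    hη₁ hη₂ hJ1 n k₁ k₂ hk
  have hJ : (0 : ℝ) ≤ J := Nat.cast_nonneg J
  have hB0 := Pe_nonneg F.isLaw B
  have mj : ∀ {a a' : ℝ}, a ≤ a' → a * J ≤ a' * J := fun h => mul_le_mul_of_nonneg_right h hJ
  have hm1 := mj hη₁
  have hm2 := mj hη₂
  -- the exceptional events
  obtain ⟨E₂, hE₂⟩ : ∃ E₂ : ℕ → ℕ → F.Ω → Prop, E₂ = fun i l ω =>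
      ¬ ∀ b, NBx c (G₂ (k₂ i) (ptr F J ω)) (g₂ (k₂ i)) ⌊o₂ (k₂ i) * J⌋₊ (F.t ω) l b →
        |eval b (G₁ (k₁ i) (ptr F J ω) l) - eval b (G₂ (k₂ i) (ptr F J ω) l)| ≤
          2 ^ ⌊η₂ (k₂ i) * J⌋₊ * (2 / 2 ^ min (g₁ (k₁ i) l) (g₂ (k₂ i) l)) := ⟨_, rfl⟩
  obtain ⟨E₁, hE₁⟩ : ∃ E₁ : ℕ → ℕ → F.Ω → Prop, E₁ = fun i l ω =>
      ¬ ∀ b, NBx c (G₁ (k₁ i) (ptr F J ω)) (g₁ (k₁ i)) ⌊o₁ (k₁ i) * J⌋₊ (F.t ω) l b →
        |eval b (G₂ (k₂ i) (ptr F J ω) l) - eval b (G₁ (k₁ i) (ptr F J ω) l)| ≤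
          2 ^ ⌊η₁ (k₁ i) * J⌋₊ * (2 / 2 ^ min (g₂ (k₂ i) l) (g₁ (k₁ i) l)) := ⟨_, rfl⟩
  have m2 : ∀ i < n, ∀ l < r₂ + 1, Pe F.p (fun ω => B ω ∧ E₂ i l ω) ≤ κ * Pe F.p B := by
    intro i hi l hl
    obtain ⟨hk1, hk2, ho, -⟩ := hk i hi
    have v1 := W₁.ev _ hk1
    have v2 := W₂.ev _ hk2
    have hR : RelvF F c r₂ ⌊o₂ (k₂ i) * J⌋₊ ⌊o₂ (k₂ i) * J⌋₊ (g₂ (k₂ i)) Dr₂
        ⌊η₂ (k₂ i) * J⌋₊ κ B (G₂ (k₂ i)) := v2.relb.mono le_rfl hκ₂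
    have cl1 := v1.cls
    rw [ho] at cl1
    rw [hE₂]
    exact twin_side (H := H₂ (k₂ i)) (H' := H₁ (k₁ i)) (hc.mono fun x hx => by
      rw [Set.mem_Iio] at hx ⊢
      omega) hR hκ (by omega) (fun y => (v2.ball.degG y l).trans e22)
      (fun y => (v1.ball.degG y l).trans e21) (fun s => (v2.ball.degH s l).trans e22)
      (fun s => (v1.ball.degH s l).trans e21) v2.ball.depG (fun y => v1.ball.depG y l)
      (fun s => v2.ball.depH s l) (fun s => v1.ball.depH s l) (fun ω hω => v2.cls ω hω l hl)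
      (fun ω hω => cl1 ω hω l (by omega)) (fun ω hω => v2.ball.pos ω hω l hl)
      fun ω hω => v1.ball.pos ω hω l (by omega)
  have m1 : ∀ i < n, ∀ l < r₂ + 1, Pe F.p (fun ω => B ω ∧ E₁ i l ω) ≤ κ * Pe F.p B := by
    intro i hi l hl
    obtain ⟨hk1, hk2, ho, -⟩ := hk i hi
    have v1 := W₁.ev _ hk1
    have v2 := W₂.ev _ hk2
    have hR : RelvF F c r₁ ⌊o₁ (k₁ i) * J⌋₊ ⌊o₁ (k₁ i) * J⌋₊ (g₁ (k₁ i)) Dr₁
        ⌊η₁ (k₁ i) * J⌋₊ κ B (G₁ (k₁ i)) := v1.relb.mono le_rfl hκ₁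
    have cl2 := v2.cls
    rw [← ho] at cl2
    rw [hE₁]
    exact twin_side (H := H₁ (k₁ i)) (H' := H₂ (k₂ i)) (hc.mono fun x hx => by
      rw [Set.mem_Iio] at hx ⊢
      omega) hR hκ (by omega) (fun y => (v1.ball.degG y l).trans e11)
      (fun y => (v2.ball.degG y l).trans e12) (fun s => (v1.ball.degH s l).trans e11)
      (fun s => (v2.ball.degH s l).trans e12) v1.ball.depG (fun y => v2.ball.depG y l)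
      (fun s => v1.ball.depH s l) (fun s => v2.ball.depH s l)
      (fun ω hω => v1.cls ω hω l (by omega)) (fun ω hω => cl2 ω hω l hl)
      (fun ω hω => v1.ball.pos ω hω l (by omega)) fun ω hω => v2.ball.pos ω hω l hl
  have m3 : ∀ i < n, Pe F.p (fun ω => B ω ∧ ∃ l < 2 * (r₂ + 1),
      (if l < r₂ + 1 then E₂ i l ω else E₁ i (l - (r₂ + 1)) ω)) ≤
        ((2 * (r₂ + 1) : ℕ) : ℝ) * (κ * Pe F.p B) := fun i hi =>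
    pe_un F.isLaw B (2 * (r₂ + 1))
      (fun l ω => if l < r₂ + 1 then E₂ i l ω else E₁ i (l - (r₂ + 1)) ω) fun l hl => by
        by_cases h : l < r₂ + 1
        · simp only [if_pos h]
          exact m2 i hi l h
        · simp only [if_neg h]
          exact m1 i hi _ (by omega)
  have m4 := pe_un F.isLaw B n (fun i ω => ∃ l < 2 * (r₂ + 1),
      (if l < r₂ + 1 then E₂ i l ω else E₁ i (l - (r₂ + 1)) ω)) m3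
  refine ⟨fun ω => B ω ∧ ¬ ∃ i < n, ∃ l < 2 * (r₂ + 1),
      (if l < r₂ + 1 then E₂ i l ω else E₁ i (l - (r₂ + 1)) ω), fun ω hω => hω.1, ?_, ?_⟩
  · rw [pe_rest]
    have e1 : (n : ℝ) * (((2 * (r₂ + 1) : ℕ) : ℝ) * (κ * Pe F.p B)) ≤
        (n : ℝ) * (((2 * r + 4 : ℕ) : ℝ) * (κ * Pe F.p B)) := by
      refine mul_le_mul_of_nonneg_left (mul_le_mul_of_nonneg_right ?_ (mul_nonneg hκ hB0))
        (Nat.cast_nonneg n)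
      exact_mod_cast (by omega : 2 * (r₂ + 1) ≤ 2 * r + 4)
    have e2 : (1 - (n : ℝ) * ((2 * r + 4 : ℕ) : ℝ) * κ) * Pe F.p B =
        Pe F.p B - (n : ℝ) * (((2 * r + 4 : ℕ) : ℝ) * (κ * Pe F.p B)) := by ring
    rw [e2]
    linarith
  · rintro ω ⟨hω, hno⟩ i hi l hl
    obtain ⟨hk1, hk2, ho, hlv⟩ := hk i hi
    obtain ⟨-, -, x1, x2⟩ := W₁.g_num hk1 (show l ≤ r₁ by omega)
    obtain ⟨-, -, y1, y2⟩ := W₂.g_num hk2 hl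
    rw [hlv l hl] at x1 x2
    have f1 : ((⌊η₁ (k₁ i) * J⌋₊ : ℕ) : ℝ) ≤ ηm * J :=
      (Nat.floor_le (mul_nonneg (W₁.hη _ hk1).1 hJ)).trans ((mj (W₁.hη _ hk1).2).trans hm1)
    have f2 : ((⌊η₂ (k₂ i) * J⌋₊ : ℕ) : ℝ) ≤ ηm * J :=
      (Nat.floor_le (mul_nonneg (W₂.hη _ hk2).1 hJ)).trans ((mj (W₂.hη _ hk2).2).trans hm2)
    have hr0 : (0 : ℝ) ≤ r := Nat.cast_nonneg r
    have hrJ : 0 ≤ (r : ℝ) * (ηm * J) := mul_nonneg hr0 (by linarith)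
    have fin : ∀ {h g g' : ℕ}, (h : ℝ) ≤ ηm * J → (g : ℝ) ≤ g' + ηm * J →
        (2 : ℝ) ^ h * (2 / 2 ^ min g' g) ≤ 2 ^ ⌊((2 * r + 4 : ℕ) : ℝ) * (ηm * J)⌋₊ / 2 ^ g := by
      intro h g g' q1 q2
      have q3 : ((h + 1 + (g - min g' g) : ℕ) : ℝ) ≤ ((2 * r + 4 : ℕ) : ℝ) * (ηm * J) := by
        have q4 : ((g - min g' g : ℕ) : ℝ) ≤ ηm * J := by
          rcases le_total g' g with q | q
          · rw [min_eq_left q, Nat.cast_sub q]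
            linarith
          · rw [min_eq_right q, Nat.sub_self, Nat.cast_zero]
            linarith
        push_cast at q4 ⊢
        nlinarith
      have q5 := Nat.le_floor q3
      have q6 : (2 : ℝ) ^ h * (2 / 2 ^ min g' g) = 2 ^ (h + 1 + (g - min g' g)) / 2 ^ g := by
        have q7 : (2 : ℝ) ^ g = 2 ^ min g' g * 2 ^ (g - min g' g) := by
          rw [← pow_add, Nat.add_sub_cancel' (min_le_right _ _)]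
        rw [q7, pow_add, pow_add, pow_one]
        field_simp
      rw [q6]
      exact div_le_div_of_nonneg_right (pow_le_pow_right₀ (by norm_num) q5) (by positivity)
    constructor
    · have q1 : ¬ E₂ i l ω := fun hE => hno ⟨i, hi, l, by omega, by
        rw [if_pos (show l < r₂ + 1 by omega)]
        exact hE⟩
      rw [hE₂, not_not] at q1
      exact fun b hb => (q1 b hb).trans (fin f2 (by linarith))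
    · have q1 : ¬ E₁ i l ω := fun hE => hno ⟨i, hi, l + (r₂ + 1), by omega, by
        rw [if_neg (show ¬ l + (r₂ + 1) < r₂ + 1 by omega), Nat.add_sub_cancel]
        exact hE⟩
      rw [hE₁, not_not] at q1
      exact fun b hb => (q1 b hb).trans (fin f1 (by linarith))

/-- **Two families of balls on one event**, at one window. -/
theorem winb_two (r : ℕ) : ∃ C : ℕ, 1 ≤ C ∧ ∀ {m J : ℕ} {F : Fam m J} {c : ℕ → Fin m}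
    {r₁ r₂ D Dr N₁ M₁ N₂ M₂ : ℕ} {C₁ a₁ Eb₁ C₂ a₂ Eb₂ ηm : ℝ}
    {o₁ η₁ σ₁ o₂ η₂ σ₂ : ℕ → ℝ} {lv₁ b₁ lv₂ b₂ : ℕ → ℕ → ℝ} {κ₁ κ₂ : ℝ} {z₁ z₂ : ℕ → ℕ → ℕ}
    {B : F.Ω → Prop} {g₁ g₂ : ℕ → ℕ → ℕ}
    {G₁ G₂ : ℕ → PtT F → ℕ → MvPolynomial (Option (Fin m)) ℝ}
    {H₁ H₂ : ℕ → LnT F → ℕ → MvPolynomial (Option (Fin m)) ℝ},
    WinB F c r₁ D Dr N₁ M₁ C₁ a₁ Eb₁ ηm o₁ η₁ σ₁ lv₁ b₁ κ₁ z₁ B g₁ G₁ H₁ →
    WinB F c r₂ D Dr N₂ M₂ C₂ a₂ Eb₂ ηm o₂ η₂ σ₂ lv₂ b₂ κ₂ z₂ B g₂ G₂ H₂ →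
    r₂ ≤ r₁ → r₁ ≤ r → D ≤ Dr → Set.InjOn c (Set.Iio (r₁ + 1)) → 0 ≤ κ₁ → 0 ≤ κ₂ →
    1 ≤ ηm * J → ∀ {k₁ k₂ : ℕ}, k₁ ≤ N₁ → k₂ ≤ N₂ → o₁ k₁ = o₂ k₂ →
    (∀ l ≤ r₂, lv₁ k₁ l = lv₂ k₂ l) →
    ∃ B' : F.Ω → Prop, Sub B' B ∧ (1 - C * max κ₁ κ₂) * Pe F.p B ≤ Pe F.p B' ∧
      ∀ ω, B' ω → ∀ l ≤ r₂,
        (∀ b, NBx c (G₂ k₂ (ptr F J ω)) (g₂ k₂) ⌊o₂ k₂ * J⌋₊ (F.t ω) l b →
          |eval b (G₁ k₁ (ptr F J ω) l) - eval b (G₂ k₂ (ptr F J ω) l)| ≤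
            2 ^ ⌊C * (ηm * J)⌋₊ / 2 ^ g₂ k₂ l) ∧
        ∀ b, NBx c (G₁ k₁ (ptr F J ω)) (g₁ k₁) ⌊o₁ k₁ * J⌋₊ (F.t ω) l b →
          |eval b (G₂ k₂ (ptr F J ω) l) - eval b (G₁ k₁ (ptr F J ω) l)| ≤
            2 ^ ⌊C * (ηm * J)⌋₊ / 2 ^ g₁ k₁ l := by
  obtain ⟨C, hC, h⟩ := winb_twos r
  refine ⟨C, hC, ?_⟩
  intro m J F c r₁ r₂ D Dr N₁ M₁ N₂ M₂ C₁ a₁ Eb₁ C₂ a₂ Eb₂ ηm o₁ η₁ σ₁ o₂ η₂ σ₂ lv₁ b₁ lv₂ b₂
    κ₁ κ₂ z₁ z₂ B g₁ g₂ G₁ G₂ H₁ H₂ W₁ W₂ hr hr₁ hD hc h1 h2 hJ1 k₁ k₂ hk1 hk2 ho hlv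
  obtain ⟨B', q1, q2, q3⟩ := h W₁ W₂ hr hr₁ hD hD hD hD hc (h1.trans (le_max_left κ₁ κ₂))
    (le_max_left _ _) (le_max_right _ _) le_rfl le_rfl hJ1 (n := 1) (k₁ := fun _ => k₁)
    (k₂ := fun _ => k₂) fun i _ => ⟨hk1, hk2, ho, hlv⟩
  rw [Nat.cast_one, one_mul] at q2
  exact ⟨B', q1, q2, fun ω hω l hl => q3 ω hω 0 one_pos l hl⟩

end Pool.V0T
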