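import Pool.Agent.H5.V0P.Nlq

/-!
# No look-ahead for several places: the entropies

`vtr`: the vector of the heights from the place `t` on. `nlqr_asm`: the induction on the number of
exact places over `nlqp_asm`.
-/

set_option autoImplicit false

namespace Pool.V0T

open Finset Real MvPolynomial
open Pool.Agent.H49.Ent Pool.Agent.H32.Dense Pool.STK Pool.KA Pool.KSAT Pool.K2S Pool.PB Pool.GEN
open Pool.S6C Pool.RCD Pool.LA91 Pool.AVG96 Pool.OWN68 Pool.V0F

variable {Ω : Type} [Fintype Ω] {p : Ω → ℝ}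

/-- **The entries** `t, …, f` of a vector. -/
def vtr (f t : ℕ) (h : Ω → ℕ → ℤ) (ω : Ω) (u : ℕ) : ℤ := if t ≤ u ∧ u ≤ f then h ω u else 0

omit [Fintype Ω] in
theorem vtr_det {f t : ℕ} (ht : t ≤ f) (h : Ω → ℕ → ℤ) :
    Det p (vtr f t h) (fun ω => (vtr f (t + 1) h ω, h ω t)) := by
  intro ω ω' _ _ e
  refine Prod.ext (funext fun u => ?_) ?_
  · have h1 := congrFun e u
    show vtr f (t + 1) h ω u = vtr f (t + 1) h ω' u
    unfold vtr at h1 ⊢
    by_cases hu : t + 1 ≤ u ∧ u ≤ f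
    · rw [if_pos ⟨by omega, hu.2⟩, if_pos ⟨by omega, hu.2⟩] at h1
      rw [if_pos hu, if_pos hu]
      exact h1
    · rw [if_neg hu, if_neg hu]
  · have h1 := congrFun e t
    unfold vtr at h1
    rwa [if_pos ⟨le_rfl, ht⟩, if_pos ⟨le_rfl, ht⟩] at h1

omit [Fintype Ω] in
theorem vtr_det' {f t : ℕ} (h : Ω → ℕ → ℤ) :
    Det p (fun ω => (vtr f (t + 1) h ω, h ω t)) (vtr f t h) := by
  intro ω ω' _ _ e
  simp only [Prod.mk.injEq] at e
  funext u
  unfold vtr
  by_cases hu : t ≤ u ∧ u ≤ f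
  · rw [if_pos hu, if_pos hu]
    rcases Nat.lt_or_eq_of_le hu.1 with h1 | rfl
    · have h2 := congrFun e.1 u
      unfold vtr at h2
      rwa [if_pos ⟨h1, hu.2⟩, if_pos ⟨h1, hu.2⟩] at h2
    · exact e.2
  · rw [if_neg hu, if_neg hu]

/-- Entropy of the vector. -/
theorem vtr_le (h0 : ∀ ω, 0 ≤ p ω) {f : ℕ} {h : Ω → ℕ → ℤ} {α : Type} {W : Ω → α} {e : ℝ}
    (he : 0 ≤ e) (hh : ∀ u ≤ f, CH p (fun ω => h ω u) W ≤ e) (t : ℕ) :
    CH p (vtr f t h) W ≤ ((f : ℝ) + 1) * e := by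
  have key : ∀ n : ℕ, CH p (fun ω => fun u : ℕ => if u < n then vtr f t h ω u else 0) W ≤
      n * e := by
    intro n
    induction n with
    | zero =>
      rw [CH_eq_zero h0 fun ω ω' _ _ _ => by
        funext u
        rw [if_neg (Nat.not_lt_zero u), if_neg (Nat.not_lt_zero u)]]
      simp
    | succ n ih =>
      have h1 : CH p (fun ω => vtr f t h ω n) W ≤ e := by
        by_cases hn : t ≤ n ∧ n ≤ f
        · refine le_trans (le_of_eq ?_) (hh n hn.2)
          congr 1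
          funext ω
          exact if_pos hn
        · rw [CH_eq_zero h0 fun ω ω' _ _ _ => by
            unfold vtr
            rw [if_neg hn, if_neg hn]]
          exact he
      have h2 := CH_subadd h0 (fun ω => fun u : ℕ => if u < n then vtr f t h ω u else 0)
        (fun ω => vtr f t h ω n) W
      have h3 : CH p (fun ω => fun u : ℕ => if u < n + 1 then vtr f t h ω u else 0) W ≤
          CH p (fun ω => ((fun u : ℕ => if u < n then vtr f t h ω u else 0),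
            vtr f t h ω n)) W := by
        refine CH_mono_left h0 fun ω ω' _ _ e => ?_
        replace e := (Prod.ext_iff.mp e).1
        simp only [Prod.mk.injEq] at e
        funext u
        by_cases hu : u < n + 1
        · rw [if_pos hu, if_pos hu]
          rcases Nat.lt_or_ge u n with h4 | h4
          · have h5 := congrFun e.1 u
            simp only [if_pos h4] at h5
            exact h5
          · obtain rfl : u = n := by omega
            exact e.2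
        · rw [if_neg hu, if_neg hu]
      push_cast
      linarith
  have h1 := key (f + 1)
  refine le_trans (le_of_eq ?_) (h1.trans (le_of_eq (by push_cast; ring)))
  congr 1
  funext ω u
  by_cases hu : u < f + 1
  · rw [if_pos hu]
  · rw [if_neg hu]
    exact if_neg fun h => hu (by omega)

/-- **The induction**: `h1`, `h2`: heights; `X`: exact positions; `X1`, `X2`: digits of `X`; `XV t`:
the exact positions before the place `t`. -/
theorem nlqr_asm (h0 : ∀ ω, 0 ≤ p ω) {f : ℕ} {h1 h2 X X1 X2 : Ω → ℕ → ℤ} {αs βs : ℕ → Type}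
    {XV : ∀ t, Ω → αs t} {CV : ∀ t, Ω → βs t} {β₂ β₃ β₄ β₅ β₆ : Type} {zw : Ω → β₂} {zc : Ω → β₃}
    {Rj : Ω → β₄} {z4 : Ω → β₅} {Y : Ω → β₆} {a e κ : ℝ} {L1 L2 F4 Fj : ℕ → ℝ} (he : 0 ≤ e)
    (hVC : ∀ t, Det p (XV t) (CV t))
    (hVA : ∀ t, Det p (fun ω => (X ω t, XV t ω)) (XV (t + 1)))
    (hAV : ∀ t, Det p (XV (t + 1)) (fun ω => (X ω t, XV t ω)))
    (hX : ∀ t < f, Det p (fun ω => X ω t) (fun ω => X2 ω t))
    (hzw : CH p zc zw ≤ a) (hzj : CH p zc Rj ≤ a) (hwz : CH p zw z4 ≤ a)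
    (u1 : ∀ t < f, CH p (fun ω => X1 ω t) (fun ω => (h1 ω t, (CV t ω, (zc ω, Y ω)))) ≤ e)
    (u2 : ∀ t < f, CH p (fun ω => h2 ω t) (fun ω => (X2 ω t, (CV t ω, (zc ω, Y ω)))) ≤ e)
    (u3 : ∀ t < f, CH p (fun ω => X2 ω t) (fun ω => (h2 ω t, (CV t ω, (zc ω, Y ω)))) ≤ e)
    (l1 : ∀ t < f, CH p (fun ω => X2 ω t) (fun ω => (X1 ω t, ())) ≤ L1 t)
    (l2 : ∀ t < f, CH p (fun ω => X ω t) (fun ω => (X2 ω t, ())) ≤ L2 t)
    (f4 : ∀ t < f, F4 t ≤ CH p (fun ω => X ω t) (fun ω => (XV t ω, (z4 ω, Y ω))))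
    (fj : ∀ t < f, Fj t ≤ CH p (fun ω => X ω t) (fun ω => (XV t ω, (Rj ω, Y ω))))
    (n1 : ∀ t ≤ f, CH p (fun ω => h1 ω t) (fun ω => (XV 0 ω, (z4 ω, Y ω))) ≤ e)
    (n2 : ∀ t ≤ f, CH p (fun ω => h2 ω t) (fun ω => (XV 0 ω, (z4 ω, Y ω))) ≤ e)
    (nl : CH p (fun ω => h2 ω f) (fun ω => (h1 ω f, (XV f ω, (zw ω, Y ω)))) ≤
      CH p (fun ω => h2 ω f) (fun ω => (XV f ω, (Rj ω, Y ω))) + κ) :
    CH p (fun ω => fun u : Fin (f + 1) => h2 ω u)
        (fun ω => ((fun u : Fin (f + 1) => h1 ω u), (XV 0 ω, (zw ω, Y ω)))) ≤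
      CH p (fun ω => fun u : Fin (f + 1) => h2 ω u) (fun ω => (XV 0 ω, (Rj ω, Y ω))) +
        (κ + ∑ u ∈ range f, (L1 u + 2 * L2 u - F4 u - Fj u + 6 * a + 9 * (((f : ℝ) + 1) * e))) := by
  have hV0 : ∀ t, Det p (XV t) (XV 0) := by
    intro t
    induction t with
    | zero => exact fun _ _ _ _ h => h
    | succ t ih => exact fun ω ω' hω hω' h => ih ω ω' hω hω' (Prod.ext_iff.mp
        (hAV t ω ω' hω hω' h)).2
  have hef : e ≤ ((f : ℝ) + 1) * e := by
    have : 0 ≤ (f : ℝ) * e := by positivity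
    linarith
  have hN : ∀ (h : Ω → ℕ → ℤ), (∀ t ≤ f, CH p (fun ω => h ω t)
      (fun ω => (XV 0 ω, (z4 ω, Y ω))) ≤ e) → ∀ t s, CH p (vtr f s h)
      (fun ω => (XV t ω, (z4 ω, Y ω))) ≤ ((f : ℝ) + 1) * e := fun h hh t s =>
    (CH_mono_cond h0 fun ω ω' hω hω' e => by
      simp only [Prod.mk.injEq] at e ⊢
      exact ⟨hV0 t ω ω' hω hω' e.1, e.2⟩).trans (vtr_le h0 he hh s)
  have hM : ∀ (h : Ω → ℕ → ℤ), (∀ t ≤ f, CH p (fun ω => h ω t)
      (fun ω => (XV 0 ω, (z4 ω, Y ω))) ≤ e) → ∀ t ≤ f, CH p (fun ω => h ω t)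
      (fun ω => (XV t ω, (z4 ω, Y ω))) ≤ ((f : ℝ) + 1) * e := fun h hh t ht =>
    (CH_mono_cond h0 fun ω ω' hω hω' e => by
      simp only [Prod.mk.injEq] at e ⊢
      exact ⟨hV0 t ω ω' hω hω' e.1, e.2⟩).trans ((hh t ht).trans hef)
  -- the induction
  have key : ∀ s t, t + s = f → CH p (vtr f t h2)
      (fun ω => (vtr f t h1 ω, (XV t ω, (zw ω, Y ω)))) ≤
      CH p (vtr f t h2) (fun ω => (XV t ω, (Rj ω, Y ω))) +
        (κ + ∑ u ∈ Ico t f, (L1 u + 2 * L2 u - F4 u - Fj u + 6 * a +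
          9 * (((f : ℝ) + 1) * e))) := by
    intro s
    induction s with
    | zero =>
      intro t ht
      obtain rfl : t = f := by omega
      have d1 : ∀ h : Ω → ℕ → ℤ, Det p (vtr t t h) (fun ω => h ω t) := fun h ω ω' _ _ e => by
        have h1 := congrFun e t
        unfold vtr at h1
        rwa [if_pos ⟨le_rfl, le_rfl⟩, if_pos ⟨le_rfl, le_rfl⟩] at h1
      have d2 : ∀ h : Ω → ℕ → ℤ, Det p (fun ω => h ω t) (vtr t t h) := fun h ω ω' _ _ e => by
        funext u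
        unfold vtr
        by_cases hu : t ≤ u ∧ u ≤ t
        · obtain rfl : u = t := le_antisymm hu.2 hu.1
          rw [if_pos hu, if_pos hu]
          exact e
        · rw [if_neg hu, if_neg hu]
      rw [Ico_self, sum_empty, add_zero]
      have a1 : CH p (vtr t t h2) (fun ω => (vtr t t h1 ω, (XV t ω, (zw ω, Y ω)))) =
          CH p (fun ω => h2 ω t) (fun ω => (h1 ω t, (XV t ω, (zw ω, Y ω)))) := by
        refine CH_congr h0 (fun ω ω' a b e => d1 h2 ω ω' a b (Prod.ext_iff.mp e).1)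
          (fun ω ω' a b e => d2 h2 ω ω' a b (Prod.ext_iff.mp e).1) (fun ω ω' a b e => ?_)
          fun ω ω' a b e => ?_
        · simp only [Prod.mk.injEq] at e ⊢
          exact ⟨d1 h1 ω ω' a b e.1, e.2⟩
        · simp only [Prod.mk.injEq] at e ⊢
          exact ⟨d2 h1 ω ω' a b e.1, e.2⟩
      have a2 : CH p (vtr t t h2) (fun ω => (XV t ω, (Rj ω, Y ω))) =
          CH p (fun ω => h2 ω t) (fun ω => (XV t ω, (Rj ω, Y ω))) :=
        CH_congr h0 (fun ω ω' a b e => d1 h2 ω ω' a b (Prod.ext_iff.mp e).1)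
          (fun ω ω' a b e => d2 h2 ω ω' a b (Prod.ext_iff.mp e).1) (fun _ _ _ _ h => h)
          fun _ _ _ _ h => h
      rw [a1, a2]
      exact nl
    | succ s ih =>
      intro t ht
      have htf : t < f := by omega
      have hn := ih (t + 1) (by omega)
      have st := Pool.V0Q.nlqp_asm h0 (N1 := vtr f (t + 1) h1) (N2 := vtr f (t + 1) h2)
        (U1 := fun ω => h1 ω t) (U2 := fun ω => h2 ω t) (XU := fun ω => X ω t)
        (X1 := fun ω => X1 ω t) (X2 := fun ω => X2 ω t) (XV := XV t) (CV := CV t)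
        (XA := XV (t + 1)) (zw := zw) (zc := zc) (Rj := Rj) (z4 := z4) (Y := Y) (a := a)
        (e := ((f : ℝ) + 1) * e) (hVC t) (hVA t) (hAV t) (hX t htf) hzw hzj hwz
        ((u1 t htf).trans hef) ((u2 t htf).trans hef) ((u3 t htf).trans hef) (l1 t htf) (l2 t htf)
        (f4 t htf) (fj t htf) (hN h1 n1 t (t + 1)) (hN h2 n2 t (t + 1)) (hM h1 n1 t htf.le)
        (hM h2 n2 t htf.le) hn
      have a1 : CH p (vtr f t h2) (fun ω => (vtr f t h1 ω, (XV t ω, (zw ω, Y ω)))) =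
          CH p (fun ω => (vtr f (t + 1) h2 ω, h2 ω t))
            (fun ω => ((vtr f (t + 1) h1 ω, h1 ω t), (XV t ω, (zw ω, Y ω)))) := by
        refine CH_congr h0 (fun ω ω' a b e => vtr_det htf.le h2 ω ω' a b (Prod.ext_iff.mp e).1)
          (fun ω ω' a b e => vtr_det' h2 ω ω' a b (Prod.ext_iff.mp e).1)
          (fun ω ω' a b e => ?_) fun ω ω' a b e => ?_
        · have e1 := Prod.ext_iff.mp e
          exact Prod.ext (vtr_det htf.le h1 ω ω' a b e1.1) e1.2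
        · have e1 := Prod.ext_iff.mp e
          exact Prod.ext (vtr_det' h1 ω ω' a b e1.1) e1.2
      have a2 : CH p (vtr f t h2) (fun ω => (XV t ω, (Rj ω, Y ω))) =
          CH p (fun ω => (vtr f (t + 1) h2 ω, h2 ω t)) (fun ω => (XV t ω, (Rj ω, Y ω))) :=
        CH_congr h0 (fun ω ω' a b e => vtr_det htf.le h2 ω ω' a b (Prod.ext_iff.mp e).1)
          (fun ω ω' a b e => vtr_det' h2 ω ω' a b (Prod.ext_iff.mp e).1) (fun _ _ _ _ h => h)
          fun _ _ _ _ h => h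
      rw [a1, a2, sum_eq_sum_Ico_succ_bot htf]
      linarith
  have k0 := key f 0 (by omega)
  have e1 : ∀ h : Ω → ℕ → ℤ, Det p (vtr f 0 h) (fun ω => fun u : Fin (f + 1) => h ω u) :=
    fun h ω ω' _ _ e => funext fun u => by
      have h1 := congrFun e u
      have h2 : (u : ℕ) ≤ f := by omega
      unfold vtr at h1
      rwa [if_pos ⟨Nat.zero_le _, h2⟩, if_pos ⟨Nat.zero_le _, h2⟩] at h1
  have e2 : ∀ h : Ω → ℕ → ℤ, Det p (fun ω => fun u : Fin (f + 1) => h ω u) (vtr f 0 h) :=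
    fun h ω ω' _ _ e => by
      funext u
      unfold vtr
      by_cases hu : 0 ≤ u ∧ u ≤ f
      · rw [if_pos hu, if_pos hu]
        exact congrFun e ⟨u, by omega⟩
      · rw [if_neg hu, if_neg hu]
  have a1 : CH p (vtr f 0 h2) (fun ω => (vtr f 0 h1 ω, (XV 0 ω, (zw ω, Y ω)))) =
      CH p (fun ω => fun u : Fin (f + 1) => h2 ω u)
        (fun ω => ((fun u : Fin (f + 1) => h1 ω u), (XV 0 ω, (zw ω, Y ω)))) := by
    refine CH_congr h0 (fun ω ω' a b e => e1 h2 ω ω' a b (Prod.ext_iff.mp e).1)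
      (fun ω ω' a b e => e2 h2 ω ω' a b (Prod.ext_iff.mp e).1) (fun ω ω' a b e => ?_)
      fun ω ω' a b e => ?_
    · have e3 := Prod.ext_iff.mp e
      exact Prod.ext (e1 h1 ω ω' a b e3.1) e3.2
    · have e3 := Prod.ext_iff.mp e
      exact Prod.ext (e2 h1 ω ω' a b e3.1) e3.2
  have a2 : CH p (vtr f 0 h2) (fun ω => (XV 0 ω, (Rj ω, Y ω))) =
      CH p (fun ω => fun u : Fin (f + 1) => h2 ω u) (fun ω => (XV 0 ω, (Rj ω, Y ω))) :=
    CH_congr h0 (fun ω ω' a b e => e1 h2 ω ω' a b (Prod.ext_iff.mp e).1)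
      (fun ω ω' a b e => e2 h2 ω ω' a b (Prod.ext_iff.mp e).1) (fun _ _ _ _ h => h)
      fun _ _ _ _ h => h
  rw [a1, a2, ← range_eq_Ico] at k0
  exact k0

end Pool.V0T
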