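import Pool.Agent.H48.V0T.S
import Pool.Agent.H5.V0T.Asm

/-!
# No look-ahead for all targets

`nlqr : NlqrStmt`.
-/

set_option autoImplicit false

namespace Pool.V0T

open Finset Real MvPolynomial
open Pool.Agent.H49.Ent Pool.Agent.H32.Dense Pool.STK Pool.KA Pool.KSAT Pool.K2S Pool.PB Pool.GEN
open Pool.S6C Pool.RCD Pool.LA91 Pool.AVG96 Pool.OWN68 Pool.V0F Pool.V0Q
open Pool.VT83 (NlqI)
open Pool.UNJ (ceI)
open Pool.V0R (LadR)

variable {m : ℕ}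

/-- Constants for finitely many targets. -/
theorem fam_min : ∀ (n : ℕ) {P : ℕ → ℝ → ℝ → Prop},
    (∀ u a a' e e', P u a e → 0 < a' → a' ≤ a → 0 < e' → e' ≤ e → P u a' e') →
    (∀ u < n, ∃ a : ℝ, 0 < a ∧ ∃ e : ℝ, 0 < e ∧ P u a e) →
    ∃ a : ℝ, 0 < a ∧ ∃ e : ℝ, 0 < e ∧ ∀ u < n, P u a e
  | 0, _, _, _ => ⟨1, one_pos, 1, one_pos, fun u hu => absurd hu (Nat.not_lt_zero u)⟩
  | n + 1, P, hm, h => by
    obtain ⟨a, ha, e, he, H⟩ := fam_min n hm fun u hu => h u (by omega)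
    obtain ⟨a', ha', e', he', H'⟩ := h n (by omega)
    refine ⟨min a a', lt_min ha ha', min e e', lt_min he he', fun u hu => ?_⟩
    rcases Nat.lt_or_ge u n with h1 | h1
    · exact hm u a _ e _ (H u h1) (lt_min ha ha') (min_le_left _ _) (lt_min he he')
        (min_le_left _ _)
    · obtain rfl : u = n := by omega
      exact hm u a' _ e' _ H' (lt_min ha ha') (min_le_right _ _) (lt_min he he')
        (min_le_right _ _)

/-- The maximum of finitely many numbers. -/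
theorem fam_sup (g : ℕ → ℝ) (y₀ : ℝ) : ∀ n : ℕ, ∃ D : ℝ, y₀ ≤ D ∧ (∀ u < n, g u ≤ D) ∧
    ∀ y, y₀ ≤ y → (∀ u < n, g u ≤ y) → D ≤ y
  | 0 => ⟨y₀, le_rfl, fun u hu => absurd hu (Nat.not_lt_zero u), fun _ h _ => h⟩
  | n + 1 => by
    obtain ⟨D, h1, h2, h3⟩ := fam_sup g y₀ n
    refine ⟨max D (g n), h1.trans (le_max_left _ _), fun u hu => ?_, fun y hy hu => ?_⟩
    · rcases Nat.lt_or_ge u n with h4 | h4
      · exact (h2 u h4).trans (le_max_left _ _)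
      · obtain rfl : u = n := by omega
        exact le_max_right _ _
    · exact max_le (h3 y hy fun u h4 => hu u (by omega)) (hu n (by omega))

/-- **The facts of one target**: digits of the position against the height at the window `w`, heights
few given the exact positions of the slope-one places and the record at `x`. -/
def TgF (S : PCl m) (c : ℕ → Fin m) (k i : ℕ) (w x η pr M₁ M₂ a e : ℝ) : Prop :=
  ∀ K : ℕ, Bas S (fun J F A => ∀ h1 h2,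
    (qJet m ((range i).image c) (c i) 0 w pr M₁).P K e J F A h1 →
    (qJet m ((range i).image c) (c i) 0 w pr M₂).P K e J F A h2 →
    (∀ (V : Type) (z : F.Ω → V), Mx (fun J F => ptr F J) (vg w) a F A z →
      CH (Pool.Agent.H49.Ent.cond F.p A True) (fun ω => F.X ⌊M₁ * J⌋₊ ω (c i)) (fun ω =>
        (h1 ω, (ceI ((range i).image c) (fun _ => J) (F.x ω), (z ω, F.W ω)))) ≤ η * J ∧
      CH (Pool.Agent.H49.Ent.cond F.p A True) h2 (fun ω => (F.X ⌊M₂ * J⌋₊ ω (c i),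
        (ceI ((range i).image c) (fun _ => J) (F.x ω), (z ω, F.W ω)))) ≤ η * J ∧
      CH (Pool.Agent.H49.Ent.cond F.p A True) (fun ω => F.X ⌊M₂ * J⌋₊ ω (c i)) (fun ω =>
        (h2 ω, (ceI ((range i).image c) (fun _ => J) (F.x ω), (z ω, F.W ω)))) ≤ η * J) ∧
    ∀ (V : Type) (z : F.Ω → V), Mx (fun J F => ptr F J) (vg x) a F A z →
      CH (Pool.Agent.H49.Ent.cond F.p A True) h1
        (fun ω => ((fun l : Fin k => F.X J ω (c l)), (z ω, F.W ω))) ≤ η * J ∧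
      CH (Pool.Agent.H49.Ent.cond F.p A True) h2
        (fun ω => ((fun l : Fin k => F.X J ω (c l)), (z ω, F.W ω))) ≤ η * J)

theorem TgF.mn {S : PCl m} {c : ℕ → Fin m} {k i : ℕ} {w x η pr M₁ M₂ a a' e e' : ℝ}
    (h : TgF S c k i w x η pr M₁ M₂ a e) (ha : a' ≤ a) (he : e' ≤ e) :
    TgF S c k i w x η pr M₁ M₂ a' e' := by
  intro K
  refine Bas.mono 0 (h K) ?_
  rintro J - F A H h1 h2 q1 q2
  obtain ⟨H1, H2⟩ := H h1 h2 ((qJet m _ _ _ _ _ _).mono le_rfl he q1)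
    ((qJet m _ _ _ _ _ _).mono le_rfl he q2)
  exact ⟨fun V z hz => H1 V z (hz.le' ha), fun V z hz => H2 V z (hz.le' ha)⟩

/-- The facts of one target. -/
theorem tg_facts {S : PCl m} {c : ℕ → Fin m} {k f : ℕ} {sn : ℕ → ℝ → ℝ} {G : Set ℝ} {b o φ : ℝ}
    (L : LadT S c k f sn G b o φ) {u : ℕ} (hu : u ≤ f) {w x D pr M₁ M₂ : ℝ} (hw : w ∈ G)
    (hx : x ∈ G) (hbw : b ≤ w) (hwx : w ≤ x) (hxo : x ≤ o) (hpr : sn (k + u) w - φ ≤ pr)
    (h10 : 0 ≤ M₁) (h12 : M₁ ≤ M₂) (h2x : M₂ + 60 * ((k : ℝ) + f + 2) * φ ≤ sn (k + u) x)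
    (h2w : M₂ + 60 * ((k : ℝ) + f + 2) * φ ≤ sn (k + u) w + (1 - w))
    (h2l : ∀ l < k + u, M₂ + 60 * ((k : ℝ) + f + 2) * φ ≤ sn (k + u) w + (1 - sn l w))
    (hatt : ∃ rk E : ℝ, rk < 1 ∧ 0 ≤ E ∧
      AttG S ((range (k + u)).image c) (c (k + u)) w (sn (k + u) w) rk E ∧ M₂ + E ≤ 1)
    (hDx : x - w ≤ D) (hDM : M₂ - sn (k + u) w + 20 * ((f : ℝ) + 1) * φ ≤ D)
    (hD1 : D + (50 * (k : ℝ) + 60) * φ ≤ 1 - w)
    (hD2 : ∀ l < k, D + (50 * (k : ℝ) + 60) * φ ≤ 1 - sn l w) {η : ℝ} (hη : 0 < η) :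
    ∃ a : ℝ, 0 < a ∧ ∃ e : ℝ, 0 < e ∧ TgF S c k (k + u) w x η pr M₁ M₂ a e := by
  obtain ⟨rk, E, hrk, hE, hatt, hME⟩ := hatt
  have hφ := L.φ0
  have hk0 : (0 : ℝ) ≤ k := Nat.cast_nonneg k
  have hf0 : (0 : ℝ) ≤ f := Nat.cast_nonneg f
  have hkφ : 0 ≤ (k : ℝ) * φ := by positivity
  have hfφ : 0 ≤ (f : ℝ) * φ := by positivity
  have huf : (u : ℝ) ≤ f := by exact_mod_cast hu
  have huφ : (u : ℝ) * φ ≤ f * φ := mul_le_mul_of_nonneg_right huf hφ.le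
  have hC : 60 * ((k : ℝ) + f + 2) * φ = 60 * (k * φ) + 60 * (f * φ) + 120 * φ := by ring
  rw [hC] at h2x h2w h2l
  have hDM' : M₂ - sn (k + u) w + 20 * (f * φ) + 20 * φ ≤ D := by
    have : 20 * ((f : ℝ) + 1) * φ = 20 * (f * φ) + 20 * φ := by ring
    linarith
  have hx1 : x ≤ 1 := hxo.trans L.o1.le
  have hbx : b ≤ x := hbw.trans hwx
  have L1 := L.toLadR.one hw
  have Lu := (L.tk (Nat.zero_le f)).toLadR
  have Lb := L.toLadR.lad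
  have hN20 : 20 * (((k + f : ℕ) : ℝ) + 1) * φ = 20 * (k * φ) + 20 * (f * φ) + 20 * φ := by
    push_cast
    ring
  have c1 := exj L1 (i := k + u) (by omega) (Set.mem_singleton w) (pr := pr) (N := M₁) hrk hE hatt
    hpr h10 (by linarith) (by rw [hN20]; linarith) (fun l hl => by
      have := h2l l hl
      rw [hN20]
      linarith) η hη
  have c2 := exj L1 (i := k + u) (by omega) (Set.mem_singleton w) (pr := pr) (N := M₂) hrk hE hatt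
    hpr (h10.trans h12) hME (by rw [hN20]; linarith) (fun l hl => by
      have := h2l l hl
      rw [hN20]
      linarith) η hη
  have hid : ∀ (J : ℕ) (F : Fam m J), ∃ χ : PtT F → PtT F, ∀ ω, ptr F J ω = χ (ptr F J ω) :=
    fun J F => ⟨fun x => x, fun _ => rfl⟩
  obtain ⟨n, hn⟩ : ∃ n, n = nq k sn w D φ := ⟨_, rfl⟩
  have hst : Nst k sn w φ n := by
    rw [hn]
    exact nq_nst hφ (by linarith) hD1
  have htp : Tp k sn b φ n := by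
    rw [hn]
    exact nq_tp Lb hw hbw (hwx.trans hxo) hD1 hD2
  have hnb : ∀ i < k, sn i x + 20 * φ ≤ n i ∧ n i ≤ 1 := fun i hi => by
    have h1 := nq_bd Lb hw hx hbw hwx hxo hDx hi
    have h2 := hD2 i hi
    rw [hn]
    exact ⟨h1.1, by linarith [h1.2]⟩
  have hnw : ∀ i < k, D ≤ n i - sn i w := fun i hi => by
    rw [hn]
    have h4 : (i : ℝ) + 1 ≤ k := by exact_mod_cast hi
    unfold nq
    nlinarith
  have hn4 : ∀ i < k, sn i x ≤ n i ∧ n i ≤ 1 := fun i hi => by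
    have := hnb i hi
    exact ⟨by linarith [this.1], this.2⟩
  have hU20 : 20 * ((u : ℝ) + 1) * φ ≤ 20 * (f * φ) + 20 * φ := by
    have : 20 * ((u : ℝ) + 1) * φ = 20 * (u * φ) + 20 * φ := by ring
    linarith
  have nN : ∀ N : ℝ, N ≤ M₂ → Few S (fun J F => ptr F J) (vg x) (fun _ F => F.W) (qPos m c k)
      (qJet m ((range (k + u)).image c) (c (k + u)) 0 w pr N) := fun N hN2 =>
    few_pos_of Lb hx hbx hxo hn4 htp (Pool.V0R.t_nupr (L.tk hu).toLadR hid kn_W hw hx hbw hwx hxo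
      le_rfl hx1 (fun i _ => by linarith) hpr hst (fun i hi => (hnb i hi).1)
      (fun v hv h3 h4 => by
        have h5 := (abs_le.1 (L.eqa (Nat.le_add_right k u) (by omega) v hv x hx (hbw.trans h3) h4
          hxo)).2
        linarith) (by linarith) (fun i hi => by linarith [hnw i hi]))
  obtain ⟨k1, hk1, e1, he1, H1⟩ := c1
  obtain ⟨k2, hk2, e2, he2, H2⟩ := c2
  obtain ⟨e3, he3, H3⟩ := (nN M₁ h12).mx L.pos η hη
  obtain ⟨e4, he4, H4⟩ := (nN M₂ le_rfl).mx L.pos η hη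
  obtain ⟨a, ha, l1, l2, lη⟩ : ∃ a : ℝ, 0 < a ∧ a ≤ k1 ∧ a ≤ k2 ∧ a ≤ η / 2 := by
    refine ⟨min (min k1 k2) (η / 2), by positivity, ?_, ?_, ?_⟩ <;>
      simp only [min_le_iff, le_refl, true_or, or_true]
  obtain ⟨e, he, f1, f2, f3, f4⟩ : ∃ e : ℝ, 0 < e ∧ e ≤ e1 ∧ e ≤ e2 ∧ e ≤ e3 ∧ e ≤ e4 := by
    refine ⟨min (min e1 e2) (min e3 e4), by positivity, ?_, ?_, ?_, ?_⟩ <;>
      simp only [min_le_iff, le_refl, true_or, or_true]
  refine ⟨a, ha, e, he, fun K => ?_⟩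
  refine Bas.mono 0 (((H1 K).and (H2 K)).and ((H3 K).and (H4 K))) ?_
  rintro J - F A ⟨⟨H1, H2⟩, H3, H4⟩ h1 h2 q1 q2
  refine ⟨fun V z hz => ?_, fun V z hz => ?_⟩
  · have a1 := H1 V z (hz.le' l1) h1 ((qJet m _ _ _ _ _ _).mono le_rfl f1 q1)
    have a2 := H2 V z (hz.le' l2) h2 ((qJet m _ _ _ _ _ _).mono le_rfl f2 q2)
    exact ⟨a1.2, a2.1, a2.2⟩
  · exact ⟨H3 V z (hz.le' lη) (fun ω => fun l : Fin k => F.X J ω (c l)) h1 (fun ω _ => rfl)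
      ((qJet m _ _ _ _ _ _).mono le_rfl f3 q1),
      H4 V z (hz.le' lη) (fun ω => fun l : Fin k => F.X J ω (c l)) h2 (fun ω _ => rfl)
      ((qJet m _ _ _ _ _ _).mono le_rfl f4 q2)⟩

set_option maxHeartbeats 8000000 in
/-- **(NLQR)** -/
theorem nlqr : NlqrStmt := by
  intro k f
  have hk0 : (0 : ℝ) ≤ k := Nat.cast_nonneg k
  have hf0 : (0 : ℝ) ≤ f := Nat.cast_nonneg f
  refine ⟨60 * ((k : ℝ) + f + 2), by linarith, ?_⟩
  intro m S c sn G b o φ L hI w w₁ vq j x₄ Λ₁ E₁ κn pr M₁ M₂ hw hj hx hbw hww hwj hjq hq1 hjx hxo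
    hx1 _ hpr hM hΛ hMf hMl hx4l _ hatt hnl hκn κ hκ
  obtain ⟨rk, hrk, hE, hatt, hME⟩ := hatt
  have hφ := L.φ0
  have hkφ : 0 ≤ (k : ℝ) * φ := by positivity
  have hfφ : 0 ≤ (f : ℝ) * φ := by positivity
  have hl2 : 0 < Real.log 2 := Real.log_pos one_lt_two
  have hl2' : Real.log 2 ≤ 7 / 10 := by
    have := Real.log_two_lt_d9
    linarith
  have hwx' : w ≤ x₄ := hww.trans (hwj.trans hjx)
  have hx11 : x₄ ≤ 1 := hxo.trans L.o1.le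
  have hbx : b ≤ x₄ := hbw.trans hwx'
  have hw1 : w ≤ 1 := hwx'.trans hx11
  have Lb := L.toLadR.lad
  have hC : 60 * ((k : ℝ) + f + 2) * φ = 60 * (k * φ) + 60 * (f * φ) + 120 * φ := by ring
  obtain ⟨η, hη⟩ : ∃ η : ℝ, η = φ / (100 * ((f : ℝ) + 1)) := ⟨_, rfl⟩
  have hη0 : 0 < η := by rw [hη]; positivity
  have hηφ : 100 * (((f : ℝ) + 1) * η) = φ := by
    rw [hη]
    field_simp
  -- the digits of the positions
  obtain ⟨D, hDx, hDM, hDub⟩ := fam_sup (fun u => M₂ u - sn (k + u) w + 20 * ((f : ℝ) + 1) * φ)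
    (x₄ - w) (f + 1)
  have hF : 20 * ((f : ℝ) + 1) * φ = 20 * (f * φ) + 20 * φ := by ring
  have hD1 : D + (50 * (k : ℝ) + 60) * φ ≤ 1 - w := by
    have : D ≤ 1 - w - (50 * (k : ℝ) + 60) * φ := by
      refine hDub _ (by linarith) fun u hu => ?_
      have := (hM u (by omega)).2.2.2
      linarith
    linarith
  have hD2 : ∀ l < k, D + (50 * (k : ℝ) + 60) * φ ≤ 1 - sn l w := fun l hl => by
    have h1 := abs_le.1 (Lb.flat hl hw hx hbw (hwx'.trans hxo) hbx hxo)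
    have : D ≤ 1 - sn l w - (50 * (k : ℝ) + 60) * φ := by
      refine hDub _ ?_ fun u hu => ?_
      · linarith [hx4l l hl]
      · have := hMl u (by omega) l (by omega)
        linarith
    linarith
  obtain ⟨u₁, rd, hrd, hch⟩ := L.ch.ch w hw
  have hA : ∀ u ≤ f, ∃ rk E : ℝ, rk < 1 ∧ 0 ≤ E ∧
      AttG S ((range (k + u)).image c) (c (k + u)) w (sn (k + u) w) rk E ∧ M₂ u + E ≤ 1 := by
    intro u hu
    rcases Nat.lt_or_eq_of_le hu with h | rfl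
    · refine ⟨rd (k + u), 0, hch.r1 (k + u) (Nat.zero_le _) (by omega), le_rfl,
        (hch.att (k + u) (Nat.zero_le _) (by omega)).attG hw1 le_rfl, ?_⟩
      have := (hMf u h).2.2
      linarith
    · exact ⟨rk, E₁, hrk, hE, hatt, hME⟩
  obtain ⟨a₀, ha₀, e₀, he₀, HT⟩ := fam_min (f + 1)
    (P := fun u a e => TgF S c k (k + u) w x₄ η (pr u) (M₁ u) (M₂ u) a e)
    (fun u a a' e e' h _ h1 _ h2 => h.mn h1 h2) fun u hu => by
      obtain ⟨m1, m2, m3, m4⟩ := hM u (by omega)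
      exact tg_facts L (by omega) hw hx hbw hwx' hxo (hpr u (by omega)) m1 m2 m3 m4
        (hMl u (by omega)) (hA u (by omega)) hDx (hDM u hu) hD1 hD2 hη0
  obtain ⟨k9, hk9, H9⟩ := hnl
  obtain ⟨ux, rx, -, hchx⟩ := L.ch.ch x₄ hx
  obtain ⟨uj, rj, -, hchj⟩ := L.ch.ch j hj
  have H10 : ∀ u < f, Bas S (fun J F A => ∀ (V : Type) (z : F.Ω → V),
      Cl2 (ptr F J) (vg x₄ J F) A z →
      ((1 - sn (k + u) x₄) - η) * Real.log 2 * J ≤ CH (Pool.Agent.H49.Ent.cond F.p A True)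
        (fun ω => F.X J ω (c (k + u)))
        (fun ω => ((fun l : Fin (k + u) => F.X J ω (c l)), (z ω, F.W ω)))) := fun u hu =>
    ful_at L.pos (fun ρ hρ => Bas.mono 0 (hchx.ful ρ hρ) fun J _ F A H V φ' ψ h i h1 h2 =>
      H V φ' ψ h i h1 (by omega)) hη0
  have H11 : ∀ u < f, Bas S (fun J F A => ∀ (V : Type) (z : F.Ω → V),
      Cl2 (ptr F J) (vg j J F) A z →
      ((1 - sn (k + u) j) - η) * Real.log 2 * J ≤ CH (Pool.Agent.H49.Ent.cond F.p A True)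
        (fun ω => F.X J ω (c (k + u)))
        (fun ω => ((fun l : Fin (k + u) => F.X J ω (c l)), (z ω, F.W ω)))) := fun u hu =>
    ful_at L.pos (fun ρ hρ => Bas.mono 0 (hchj.ful ρ hρ) fun J _ F A H V φ' ψ h i h1 h2 =>
      H V φ' ψ h i h1 (by omega)) hη0
  obtain ⟨κ₁, hκ₁, l1, l9, lη⟩ : ∃ κ₁ : ℝ, 0 < κ₁ ∧ κ₁ ≤ a₀ ∧ κ₁ ≤ k9 ∧ κ₁ ≤ η / 2 := by
    refine ⟨min a₀ (min k9 (η / 2)), by positivity, ?_, ?_, ?_⟩ <;>
      simp only [min_le_iff, le_refl, true_or, or_true]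
  obtain ⟨J₁, hJ₁⟩ := exists_nat_gt (1 / η)
  refine ⟨κ₁, hκ₁, e₀, he₀, fun K => ?_⟩
  refine Bas.mono J₁ (((Bas.all (f + 1) fun u hu => HT u hu K).and H9).and
    (((Bas.all f H10).and (Bas.all f H11)).and (pos_bas L.pos))) ?_
  rintro J hJ F A ⟨⟨HT, H9⟩, ⟨H10, H11⟩, hA'⟩ V₁ zw V₂ Rj hzw hRj v₁ v₂ hv₁ hv₂
  have hcl := isLaw_cond F.isLaw hA'
  have h0 := hcl.nonneg
  have hJ0 : (0 : ℝ) ≤ J := Nat.cast_nonneg J
  have hηJ : 1 ≤ η * J := by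
    have h1 : 1 / η < J := hJ₁.trans_le (by exact_mod_cast hJ)
    rw [div_lt_iff₀ hη0] at h1
    linarith
  have hkJ : κ₁ * J ≤ η / 2 * J := mul_le_mul_of_nonneg_right lη hJ0
  have hj1 : j ≤ 1 := hjx.trans hx11
  have hw₁1 : w₁ ≤ 1 := hwj.trans hj1
  -- the canonical records
  have zc : Mx (fun J F => ptr F J) (vg w) κ₁ F A (cR F A w) := mx_cR hA' w hκ₁.le
  have zq : Mx (fun J F => ptr F J) (vg vq) κ₁ F A (cR F A vq) := mx_cR hA' vq hκ₁.le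
  have z4 : Mx (fun J F => ptr F J) (vg x₄) κ₁ F A (cR F A x₄) := mx_cR hA' x₄ hκ₁.le
  have d1 : CH (Pool.Agent.H49.Ent.cond F.p A True) (cR F A w) zw ≤ κ₁ * J :=
    mx_before hzw hww hw₁1 zc.1
  have d2 : CH (Pool.Agent.H49.Ent.cond F.p A True) (cR F A w) Rj ≤ κ₁ * J :=
    mx_before hRj (hww.trans hwj) hj1 zc.1
  have d3 : CH (Pool.Agent.H49.Ent.cond F.p A True) zw (cR F A x₄) ≤ κ₁ * J :=
    mx_before z4 (hwj.trans hjx) hx11 hzw.1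
  have d4 : CH (Pool.Agent.H49.Ent.cond F.p A True) Rj (cR F A vq) ≤ κ₁ * J :=
    mx_before zq hjq hq1 hRj.1
  -- the heights
  obtain ⟨g1, hg1⟩ : ∃ g1 : F.Ω → ℕ → ℤ, g1 = fun ω u =>
    if hu : u < f + 1 then v₁ ω ⟨u, hu⟩ else 0 := ⟨_, rfl⟩
  obtain ⟨g2, hg2⟩ : ∃ g2 : F.Ω → ℕ → ℤ, g2 = fun ω u =>
    if hu : u < f + 1 then v₂ ω ⟨u, hu⟩ else 0 := ⟨_, rfl⟩
  have qq1 : ∀ u, ∀ hu : u < f + 1, (fun ω => g1 ω u) = fun ω => v₁ ω ⟨u, hu⟩ := fun u hu => by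
    funext ω
    rw [hg1]
    exact dif_pos hu
  have qq2 : ∀ u, ∀ hu : u < f + 1, (fun ω => g2 ω u) = fun ω => v₂ ω ⟨u, hu⟩ := fun u hu => by
    funext ω
    rw [hg2]
    exact dif_pos hu
  have q1 : ∀ u < f + 1, (qJet m ((range (k + u)).image c) (c (k + u)) 0 w (pr u) (M₁ u)).P K e₀
      J F A (fun ω => g1 ω u) := fun u hu => by
    rw [qq1 u hu]
    exact hv₁ ⟨u, hu⟩
  have q2 : ∀ u < f + 1, (qJet m ((range (k + u)).image c) (c (k + u)) 0 w (pr u) (M₂ u)).P K e₀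
      J F A (fun ω => g2 ω u) := fun u hu => by
    rw [qq2 u hu]
    exact hv₂ ⟨u, hu⟩
  have T1 := fun u hu => (HT u hu (fun ω => g1 ω u) (fun ω => g2 ω u) (q1 u hu) (q2 u hu)).1 _
    (cR F A w) (zc.le' l1)
  have T2 := fun u hu => (HT u hu (fun ω => g1 ω u) (fun ω => g2 ω u) (q1 u hu) (q2 u hu)).2 _
    (cR F A x₄) (z4.le' l1)
  have a9 := H9 V₁ zw _ (cR F A vq) (hzw.le' l9) (zq.le' l9)
  have hf1 : f < f + 1 := Nat.lt_succ_self f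
  obtain ⟨mf0, mf1, mf2, mf3⟩ := hM f le_rfl
  -- the digits of the last place
  have hCφ0 : 0 ≤ 60 * ((k : ℝ) + f + 2) * φ := by rw [hC]; linarith
  have hmore : CH (Pool.Agent.H49.Ent.cond F.p A True) (fun ω => F.X ⌊Λ₁ * J⌋₊ ω (c (k + f)))
      (fun ω => (F.X ⌊M₁ f * J⌋₊ ω (c (k + f)), (g1 ω f,
        ((fun l : Fin (k + f) => F.X J ω (c l)), (zw ω, F.W ω))))) ≤
      60 * ((k : ℝ) + f + 2) * φ * J * (7 / 10) + η * J := by
    have hC0 : 0 ≤ 60 * ((k : ℝ) + f + 2) * φ * J := mul_nonneg hCφ0 hJ0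
    rcases le_total ⌊Λ₁ * (J : ℝ)⌋₊ ⌊M₁ f * (J : ℝ)⌋₊ with h | h
    · rw [CH_eq_zero h0 fun ω ω' _ _ hh => X_det F (c (k + f)) h (Prod.ext_iff.mp hh).1]
      linarith
    · have h1 := X_more hcl h (c (k + f)) (fun ω => (g1 ω f,
        ((fun l : Fin (k + f) => F.X J ω (c l)), (zw ω, F.W ω))))
      refine h1.trans ?_
      have g1 : (⌊M₁ f * (J : ℝ)⌋₊ : ℝ) ≤ ⌊Λ₁ * (J : ℝ)⌋₊ := by exact_mod_cast h
      have g2 : M₁ f * (J : ℝ) ≤ (⌊M₁ f * (J : ℝ)⌋₊ : ℝ) + 1 := (Nat.lt_floor_add_one _).le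
      have g3 : (⌊Λ₁ * (J : ℝ)⌋₊ : ℝ) ≤ (M₁ f + 60 * ((k : ℝ) + f + 2) * φ) * J := by
        refine (Nat.cast_le.2 (Nat.floor_le_floor (mul_le_mul_of_nonneg_right hΛ hJ0))).trans ?_
        exact Nat.floor_le (mul_nonneg (add_nonneg mf0 hCφ0) hJ0)
      have g4 : ((⌊Λ₁ * (J : ℝ)⌋₊ : ℝ) - ⌊M₁ f * (J : ℝ)⌋₊) * Real.log 2 ≤
          ((⌊Λ₁ * (J : ℝ)⌋₊ : ℝ) - ⌊M₁ f * (J : ℝ)⌋₊) * (7 / 10) :=
        mul_le_mul_of_nonneg_left hl2' (by linarith)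
      nlinarith
  have hnl := nl_asm h0 (N1 := fun ω => g1 ω f) (N2 := fun ω => g2 ω f)
    (XJ := fun ω => fun l : Fin (k + f) => F.X J ω (c l))
    (C := fun ω => ceI ((range (k + f)).image c) (fun _ => J) (F.x ω)) (zw := zw)
    (zc := cR F A w) (zv := cR F A vq) (Rj := Rj) (Y := F.W)
    (Xo := fun ω => F.X ⌊M₂ f * J⌋₊ ω (c (k + f))) (Xv := fun ω => F.X ⌊Λ₁ * J⌋₊ ω (c (k + f)))
    (Xn := fun ω => F.X ⌊M₁ f * J⌋₊ ω (c (k + f))) (a := κ₁ * J) (e := η * J)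
    (d := 60 * ((k : ℝ) + f + 2) * φ * J * (7 / 10) + η * J) (κn := κn * J)
    (det_cei rfl _) (det_cei' rfl _) d1 d2 d4 (T1 f hf1).2.1 (T1 f hf1).2.2
    (T1 f hf1).1 hmore (by
      rw [hI]
      exact a9)
  -- all targets
  have b3 : ∀ u < f, ⌊M₂ u * (J : ℝ)⌋₊ ≤ J := fun u hu => floor_le (by
    have := (hMf u hu).2.2
    linarith) J
  have key := nlqr_asm h0 (f := f) (h1 := g1) (h2 := g2)
    (X := fun ω u => F.X J ω (c (k + u))) (X1 := fun ω u => F.X ⌊M₁ u * J⌋₊ ω (c (k + u)))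
    (X2 := fun ω u => F.X ⌊M₂ u * J⌋₊ ω (c (k + u)))
    (αs := fun t => Fin (k + t) → ℤ) (βs := fun _ => Fin m → ℤ)
    (XV := fun t ω => fun l : Fin (k + t) => F.X J ω (c l))
    (CV := fun t ω => ceI ((range (k + t)).image c) (fun _ => J) (F.x ω)) (zw := zw)
    (zc := cR F A w) (Rj := Rj) (z4 := cR F A x₄) (Y := F.W) (a := κ₁ * J) (e := η * J)
    (κ := 4 * (κ₁ * J) + 3 * (η * J) + (60 * ((k : ℝ) + f + 2) * φ * J * (7 / 10) + η * J) +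
      κn * J)
    (L1 := fun u => ((⌊M₂ u * (J : ℝ)⌋₊ : ℝ) - ⌊M₁ u * (J : ℝ)⌋₊) * Real.log 2)
    (L2 := fun u => ((J : ℝ) - ⌊M₂ u * (J : ℝ)⌋₊) * Real.log 2)
    (F4 := fun u => ((1 - sn (k + u) x₄) - η) * Real.log 2 * J)
    (Fj := fun u => ((1 - sn (k + u) j) - η) * Real.log 2 * J)
    (mul_nonneg hη0.le hJ0)
    (fun t => det_cei rfl _)
    (fun t ω ω' _ _ hh => by
      have h1 := Prod.ext_iff.mp hh
      refine funext fun l => ?_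
      refine Fin.lastCases h1.1 (fun l => ?_) l
      exact congrFun h1.2 l)
    (fun t ω ω' _ _ hh =>
      Prod.ext (congrFun hh (Fin.last (k + t))) (funext fun l => congrFun hh l.castSucc))
    (fun t ht ω ω' _ _ hh => X_det F (c (k + t)) (b3 t ht) hh) d1 d2 d3
    (fun t ht => (T1 t (by omega)).1) (fun t ht => (T1 t (by omega)).2.1)
    (fun t ht => (T1 t (by omega)).2.2)
    (fun t ht => X_more hcl (Nat.floor_le_floor (mul_le_mul_of_nonneg_right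
      (hM t ht.le).2.1 hJ0)) (c (k + t)) (fun _ : F.Ω => ()))
    (fun t ht => X_more hcl (b3 t ht) (c (k + t)) (fun _ : F.Ω => ()))
    (fun t ht => H10 t ht _ (cR F A x₄) z4.1) (fun t ht => H11 t ht _ Rj hRj.1)
    (fun t ht => (T2 t (by omega)).1) (fun t ht => (T2 t (by omega)).2) hnl
  have e1 : (fun ω => fun u : Fin (f + 1) => g1 ω u) = v₁ := by
    funext ω u
    rw [hg1]
    exact dif_pos u.2
  have e2 : (fun ω => fun u : Fin (f + 1) => g2 ω u) = v₂ := by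
    funext ω u
    rw [hg2]
    exact dif_pos u.2
  have e1' : (fun ω => ((fun u : Fin (f + 1) => g1 ω u),
      ((fun l : Fin (k + 0) => F.X J ω (c l)), (zw ω, F.W ω)))) =
      fun ω => (v₁ ω, ((fun l : Fin k => F.X J ω (c l)), (zw ω, F.W ω))) := by
    rw [← e1]
    rfl
  rw [e2, e1'] at key
  refine key.trans (add_le_add le_rfl ?_)
  -- the numbers
  have t1 : (κn + 8 * ((f : ℝ) + 1) * (60 * ((k : ℝ) + f + 2)) * φ) * J ≤ κ * J :=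
    mul_le_mul_of_nonneg_right hκ hJ0
  have hB : ∀ u ∈ range f, ((⌊M₂ u * (J : ℝ)⌋₊ : ℝ) - ⌊M₁ u * (J : ℝ)⌋₊) * Real.log 2 +
      2 * (((J : ℝ) - ⌊M₂ u * (J : ℝ)⌋₊) * Real.log 2) -
      ((1 - sn (k + u) x₄) - η) * Real.log 2 * J - ((1 - sn (k + u) j) - η) * Real.log 2 * J +
      6 * (κ₁ * J) + 9 * (((f : ℝ) + 1) * (η * J)) ≤
      21 / 10 * (60 * ((k : ℝ) + f + 2) * φ * J) + 6 * (η * J) + 9 * (((f : ℝ) + 1) * (η * J)) := by
    intro u hu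
    rw [mem_range] at hu
    obtain ⟨m1, m2, m3, m4⟩ := hM u hu.le
    obtain ⟨n1, n2, n3⟩ := hMf u hu
    have hM20 : 0 ≤ M₂ u := m1.trans m2
    have b1 : (⌊M₁ u * (J : ℝ)⌋₊ : ℝ) ≤ M₁ u * J := Nat.floor_le (mul_nonneg m1 hJ0)
    have b2 : M₁ u * (J : ℝ) ≤ (⌊M₁ u * (J : ℝ)⌋₊ : ℝ) + 1 := (Nat.lt_floor_add_one _).le
    have b3 : (⌊M₂ u * (J : ℝ)⌋₊ : ℝ) ≤ M₂ u * J := Nat.floor_le (mul_nonneg hM20 hJ0)
    have b4 : M₂ u * (J : ℝ) ≤ (⌊M₂ u * (J : ℝ)⌋₊ : ℝ) + 1 := (Nat.lt_floor_add_one _).le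
    have t2 : sn (k + u) j * J ≤ (M₁ u + 60 * ((k : ℝ) + f + 2) * φ) * J :=
      mul_le_mul_of_nonneg_right n1 hJ0
    have t3 : sn (k + u) x₄ * J ≤ (M₂ u + 2 * (60 * ((k : ℝ) + f + 2)) * φ) * J :=
      mul_le_mul_of_nonneg_right n2 hJ0
    have hC0 : 0 ≤ 60 * ((k : ℝ) + f + 2) * φ * J := mul_nonneg hCφ0 hJ0
    have t4 : ((⌊M₂ u * (J : ℝ)⌋₊ : ℝ) - ⌊M₁ u * (J : ℝ)⌋₊) +
        2 * ((J : ℝ) - ⌊M₂ u * (J : ℝ)⌋₊) - ((1 - sn (k + u) x₄) - η) * J -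
        ((1 - sn (k + u) j) - η) * J ≤ 3 * (60 * ((k : ℝ) + f + 2) * φ * J) + 2 + 2 * (η * J) := by
      linarith
    have t5 := (mul_le_mul_of_nonneg_right t4 hl2.le).trans
      (mul_le_mul_of_nonneg_left hl2' (show 0 ≤ 3 * (60 * ((k : ℝ) + f + 2) * φ * J) + 2 +
        2 * (η * J) by linarith))
    have t6 : ((⌊M₂ u * (J : ℝ)⌋₊ : ℝ) - ⌊M₁ u * (J : ℝ)⌋₊) * Real.log 2 +
        2 * (((J : ℝ) - ⌊M₂ u * (J : ℝ)⌋₊) * Real.log 2) -
        ((1 - sn (k + u) x₄) - η) * Real.log 2 * J -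
        ((1 - sn (k + u) j) - η) * Real.log 2 * J =
        (((⌊M₂ u * (J : ℝ)⌋₊ : ℝ) - ⌊M₁ u * (J : ℝ)⌋₊) + 2 * ((J : ℝ) - ⌊M₂ u * (J : ℝ)⌋₊) -
        ((1 - sn (k + u) x₄) - η) * J - ((1 - sn (k + u) j) - η) * J) * Real.log 2 := by ring
    rw [t6]
    linarith
  have hS := sum_le_sum hB
  rw [sum_const, card_range, nsmul_eq_mul] at hS
  have hφJ : φ * J = 100 * (((f : ℝ) + 1) * (η * J)) := by
    rw [← hηφ]
    ring
  obtain ⟨Y, hY⟩ : ∃ Y : ℝ, Y = 60 * ((k : ℝ) + f + 2) * φ * J := ⟨_, rfl⟩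
  have hYφ : 120 * (φ * J) ≤ Y := by
    have h1 : 0 ≤ ((k : ℝ) + f) * (φ * J) := by positivity
    rw [hY]
    linarith
  have hfη : η * J ≤ ((f : ℝ) + 1) * (η * J) := by
    have : 0 ≤ (f : ℝ) * (η * J) := by positivity
    linarith
  have hfY : 0 ≤ (f : ℝ) * Y := by
    have : 0 ≤ φ * J := by positivity
    exact mul_nonneg hf0 (by linarith)
  have hfφ' : 120 * (f * (φ * J)) ≤ f * Y := by
    have := mul_le_mul_of_nonneg_left hYφ hf0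
    linarith
  have hfη' : (f : ℝ) * (η * J) ≤ f * (φ * J) / 100 := by
    rw [hφJ]
    have := mul_le_mul_of_nonneg_left hfη hf0
    linarith
  have hff : (f : ℝ) * (((f : ℝ) + 1) * (η * J)) = f * (φ * J) / 100 := by
    rw [hφJ]
    ring
  have t7 : 8 * ((f : ℝ) + 1) * (60 * ((k : ℝ) + f + 2)) * φ * J = 8 * (f * Y) + 8 * Y := by
    rw [hY]
    ring
  rw [← hY] at hS ⊢
  have t8 : (f : ℝ) * (21 / 10 * Y + 6 * (η * J) + 9 * (((f : ℝ) + 1) * (η * J))) =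
      21 / 10 * (f * Y) + 6 * (f * (η * J)) + 9 * (f * (((f : ℝ) + 1) * (η * J))) := by ring
  rw [t8] at hS
  have t9 : (κn + 8 * ((f : ℝ) + 1) * (60 * ((k : ℝ) + f + 2)) * φ) * J =
      κn * J + 8 * ((f : ℝ) + 1) * (60 * ((k : ℝ) + f + 2)) * φ * J := by ring
  have : 0 ≤ f * (φ * J) := by positivity
  linarith

end Pool.V0T
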