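import Pool.Agent.H48.V0T.Par
import Pool.Agent.H5.V0P.Cel

/-!
# Two samples of one cell, for several targets

`celT`: the slope-one places over the charts of the window `b`, the targets over their labels; with
the gradients this is the cell hypothesis of the event theorem.
-/

set_option autoImplicit false

namespace Pool.V0T

open Finset Real MvPolynomial
open Pool.Agent.H49.Ent Pool.Agent.H32.Dense
open Pool.STK hiding pr2
open Pool.KA Pool.KSAT Pool.K2S Pool.PB Pool.S6C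
open Pool.GEN Pool.CHT Pool.CHX Pool.ISO Pool.LA91 Pool.AVG71 Pool.AVG5 Pool.D2F2 Pool.AVG57
open Pool.RCD Pool.AVG96 Pool.OWN68 Pool.V0F Pool.V0Q
open Pool.AJW (CfB)
open Pool.D2R (WinB gnh hgt winb_cell)

/-- **Two samples of one cell.** -/
theorem celT (f m D D' k : ℕ) : ∃ Cc : ℕ, 1 ≤ Cc ∧
    ∀ {s : ℝ} {sn : ℕ → ℝ → ℝ} {Gs : Set ℝ} {b o φ w u y ξ T Λ C κ₀ e : ℝ} {lam : ℝ → ℝ}
    {jw xw x' xr xq w₁ vq oq : ℝ} {xa : ℕ → ℝ} {J : ℕ} {F : Fam m J}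
    {c : ℕ → Fin m} {Dr N M : ℕ} {C₀ a Eb ηm E : ℝ} {ow η σ : ℕ → ℝ} {lv bb : ℕ → ℕ → ℝ} {κ : ℝ}
    {z : ℕ → ℕ → ℕ} {A : F.Ω → Prop} {g₀ : ℕ → ℕ → ℕ}
    {G : ℕ → PtT F → ℕ → MvPolynomial (Option (Fin m)) ℝ}
    {H : ℕ → LnT F → ℕ → MvPolynomial (Option (Fin m)) ℝ}
    {GN : PtT F → ℕ → MvPolynomial (Option (Fin m)) ℝ}
    {HN : LnT F → ℕ → MvPolynomial (Option (Fin m)) ℝ} {kb kw mm : ℕ},
    WinB F c (k + f) D Dr N M C₀ a Eb ηm ow η σ lv bb κ z A g₀ G H →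
    NP k f s sn Gs b o φ w u y ξ T Λ C κ₀ e lam jw xw x' xr xq w₁ vq oq xa →
    Set.InjOn c (Set.Iio (k + f + 1)) → kb ≤ N → kw ≤ N → ow kb = b → ow kw = w →
    (∀ t ≤ N, ∀ l ≤ k + f, lv t l = sn l (ow t)) → C₀ * ηm ≤ φ →
    (∀ l ≤ k + f, Eb + sn l w + Λ * u ≤ 1) →
    (∃ jq ≤ M, ∃ jT ≤ M, (z kb jq : ℝ) ≤ u * J ∧ z kb jq + 1 ≤ z kb jT) →
    LbT F c k f D' w u φ E sn A (g₀ kw) (G kw) GN HN →
    10 ≤ φ * J → (Cc : ℝ) * (2 * φ) ≤ u → (mm : ℝ) ≤ u / 2 * J →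
    ∀ ω ν, A ω → A ν → ptr F J ω = ptr F J ν →
      (∀ l < k, |hgt F c (frT G GN kb k) ω l - hgt F c (frT G GN kb k) ν l| ≤
        1 / 2 ^ (g₀ kw l + ⌊(u + 500 * y) * J⌋₊ + (⌊ξ * u * J⌋₊ + mm))) ∧
      ∀ l, k ≤ l → l ≤ k + f →
        |hgt F c (frT G GN kb k) ω l - hgt F c (frT G GN kb k) ν l| ≤
          1 / 2 ^ (g₀ kw l + ⌊(u + 500 * y) * J⌋₊ + ⌊ξ * u * J⌋₊) := by
  obtain ⟨Cc, hCc, Hc⟩ := winb_cell m D (k + f)
  refine ⟨Cc, hCc, ?_⟩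
  intro s sn Gs b o φ w u y ξ T Λ C κ₀ e lam jw xw x' xr xq w₁ vq oq xa J F c Dr N M C₀ a Eb ηm E
    ow η σ lv bb κ z A g₀ G H GN HN kb kw mm W Nn hinj hkb hkw hob how hlv hC hEb hzb hL big hCu
    hmm ω ν hω hν hpt
  obtain ⟨b1, b2, b3, b4, b5, b6, b7, b8, b9, b10, b11, b12, b13, b14, b15, b16, b17⟩ := Nn.wb
  obtain ⟨h1, h2, h3, h4, h5, h6, h7, h8, h9, h10⟩ := Nn.sm
  obtain ⟨d1, d2⟩ := Nn.ξu
  have hJ : (0 : ℝ) ≤ J := Nat.cast_nonneg J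
  have hs := Nn.s1
  have hu := Nn.u0
  have hyu := Nn.yu
  have hT := Nn.Tu0
  have hru := Nn.ru0
  have hroom := Nn.room
  have hbw := Nn.bw
  have hy0 := Nn.y0
  have mj : ∀ {a a' : ℝ}, a ≤ a' → a * J ≤ a' * J := fun h => mul_le_mul_of_nonneg_right h hJ
  have hηm0 : 0 ≤ ηm := (W.hη _ hkb).1.trans (W.hη _ hkb).2
  have hηφ : ηm ≤ φ := (le_mul_of_one_le_left hηm0 W.C1).trans hC
  obtain ⟨Y, hY⟩ : ∃ Y : ℕ, Y = ⌈φ * (J : ℝ)⌉₊ := ⟨_, rfl⟩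
  have hY1 : φ * J ≤ Y := by
    rw [hY]
    exact Nat.le_ceil _
  have hY2 : (Y : ℝ) ≤ φ * J + 1 := by
    rw [hY]
    exact (Nat.ceil_lt_add_one (by linarith)).le
  have hCY : (Cc : ℝ) * Y ≤ u * J := by
    have e1 : (Cc : ℝ) * Y ≤ Cc * (2 * φ * J) :=
      mul_le_mul_of_nonneg_left (by linarith) (Nat.cast_nonneg _)
    have e2 := mj hCu
    linarith
  have hC0 : C₀ * (ηm * J) ≤ Y := by
    have e1 := mj hC
    have e2 : C₀ * (ηm * J) = C₀ * ηm * J := by ring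
    rw [e2]
    linarith
  have hY3 : 1 ≤ Y := by
    have : (1 : ℝ) ≤ Y := by linarith
    exact_mod_cast this
  have e2 := Nat.floor_le (show 0 ≤ (u + 500 * y) * (J : ℝ) from mul_nonneg (by linarith) hJ)
  have e3 := Nat.floor_le (show 0 ≤ ξ * u * (J : ℝ) from mul_nonneg d1.le hJ)
  have hT' : 240 * u ≤ Λ * u := by linarith
  have huJ : 0 ≤ u * (J : ℝ) := mul_nonneg hu.le hJ
  have hyuJ : 4000 * y * J ≤ u * J := mj hyu
  have hξuJ : ξ * u * J ≤ u * J := mj d2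
  have hφuJ : φ * J ≤ u * J := mj (by linarith)
  have hφ1 : 1 ≤ φ * J := by linarith
  refine ⟨fun l hl => ?_, fun l hl1 hl2 => ?_⟩
  · have hfr : ∀ τ, hgt F c (frT G GN kb k) τ l = hgt F c (G kb) τ l := fun τ => by
      unfold Pool.D2R.hgt frT
      rw [if_pos hl]
    rw [hfr, hfr]
    obtain ⟨q, hq⟩ : ∃ q : ℕ, q = ⌈(w - b + 4 * φ) * (J : ℝ)⌉₊ + (⌊(u + 500 * y) * J⌋₊ +
        (⌊ξ * u * J⌋₊ + mm) + 2) := ⟨_, rfl⟩
    have hq1 : (w - b + 4 * φ) * J + ((⌊(u + 500 * y) * J⌋₊ + (⌊ξ * u * J⌋₊ + mm) + 2 : ℕ) : ℝ) ≤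
        q := by
      rw [hq]
      push_cast
      have := Nat.le_ceil ((w - b + 4 * φ) * (J : ℝ))
      linarith
    have hq2 : (q : ℝ) ≤ (w - b + 4 * φ) * J + 3 + 4 * (u * J) := by
      rw [hq]
      push_cast
      have e1 := (Nat.ceil_lt_add_one (show 0 ≤ (w - b + 4 * φ) * (J : ℝ) from
        mul_nonneg (by linarith) hJ)).le
      linarith
    obtain ⟨jq, hjq, jT, hjT, hz1, hz2⟩ := hzb
    have hl' : ∀ l ≤ k + f, sn l b + (w - b) ≤ sn l w + 2 * φ := by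
      intro l hl
      rcases Nat.lt_or_ge l k with h | h
      · have e1 := Nn.slv h Nn.bG le_rfl b3
        linarith
      · have e1 := Nn.stv h hl Nn.bG le_rfl b3
        have e2 : 1 * (w - b) ≤ s * (w - b) := mul_le_mul_of_nonneg_right hs.le (by linarith)
        linarith
    have h7 := Hc W (k₀ := kb) (jq := jq) (jT := jT) (q := q) (Y := Y) hinj hkb hjq hjT hz2 hC0
      hY3 (fun l hl => by
        rw [hlv _ hkb l hl, hob]
        have e1 := hl' l hl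
        have e2 := hEb l hl
        have e3 := mj (show Eb + sn l b + (w - b) + 240 * u ≤ 1 + 2 * φ by linarith)
        linarith) ω ν hω hν hpt l (by omega)
    refine h7.trans (four_div ?_)
    obtain ⟨-, -, g1, -⟩ := W.g_num hkb (show l ≤ k + f by omega)
    obtain ⟨-, -, -, g2⟩ := W.g_num hkw (show l ≤ k + f by omega)
    rw [hlv _ hkb l (by omega), hob] at g1
    rw [hlv _ hkw l (by omega), how] at g2
    have e1 := Nn.slv hl Nn.bG le_rfl b3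
    have e2 := mj hηφ
    have e3 := mj (show sn l w + φ ≤ sn l b + (w - b + 4 * φ) by linarith)
    have e4 : ((g₀ kw l + ⌊(u + 500 * y) * J⌋₊ + (⌊ξ * u * J⌋₊ + mm) + 2 : ℕ) : ℝ) ≤
        ((g₀ kb l + q : ℕ) : ℝ) := by
      push_cast at hq1 ⊢
      linarith
    exact_mod_cast e4
  · have hfr : ∀ τ, hgt F c (frT G GN kb k) τ l =
        F.x τ (c l) - eval (bt F τ) (GN (ptr F J τ) l) := fun τ => by
      unfold Pool.D2R.hgt frT
      rw [if_neg (by omega)]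
    rw [hfr, hfr]
    refine (hL.cell l hl1 hl2 ω ν hω hν hpt).trans ?_
    refine one_div_le_one_div_of_le (by positivity) (pow_le_pow_right₀ (by norm_num) ?_)
    obtain ⟨-, -, -, g2⟩ := W.g_num hkw hl2
    rw [hlv _ hkw l hl2, how] at g2
    refine Nat.le_floor ?_
    push_cast
    linarith

end Pool.V0T
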